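import Pool.Agent.Y440.A.Stm

/-!
# Q440-AVG: averaging over the maps of eight points
-/

set_option autoImplicit false

open Finset

namespace Pool.Agent.Y781.Q440

open Pool.Agent.Y440.A

variable {V : Type} [Fintype V] {M : Type} [AddCommMonoid M]

theorem perm_sum (κ : V → V → V → V → V → V → V → V → M) (f : Fin 8 → Fin 8) (hf : Function.Bijective f) :
    ∑ x : Fin 8 → V, κ (x (f 0)) (x (f 1)) (x (f 2)) (x (f 3)) (x (f 4)) (x (f 5)) (x (f 6)) (x (f 7)) =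
      ∑ x : Fin 8 → V, κ (x 0) (x 1) (x 2) (x 3) (x 4) (x 5) (x 6) (x 7) :=
  Equiv.sum_comp (Equiv.arrowCongr (Equiv.ofBijective f hf).symm (Equiv.refl V))
    (fun x : Fin 8 → V => κ (x 0) (x 1) (x 2) (x 3) (x 4) (x 5) (x 6) (x 7))

theorem cons_sum {n : ℕ} (g : (Fin (n + 1) → V) → M) :
    ∑ x : Fin (n + 1) → V, g x = ∑ a : V, ∑ y : Fin n → V, g (Fin.cons a y) := by
  rw [← Fintype.sum_prod_type' (fun (a : V) (y : Fin n → V) => g (Fin.cons a y))]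
  exact (Equiv.sum_comp (Fin.consEquiv (fun _ : Fin (n + 1) => V)) g).symm

theorem iter8 (κ : V → V → V → V → V → V → V → V → M) :
    ∑ x : Fin 8 → V, κ (x 0) (x 1) (x 2) (x 3) (x 4) (x 5) (x 6) (x 7) =
      ∑ a, ∑ b, ∑ c, ∑ d, ∑ e, ∑ f, ∑ u, ∑ v, κ a b c d e f u v := by
  rw [cons_sum]; refine sum_congr rfl fun a _ => ?_
  rw [cons_sum]; refine sum_congr rfl fun b _ => ?_
  rw [cons_sum]; refine sum_congr rfl fun c _ => ?_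
  rw [cons_sum]; refine sum_congr rfl fun d _ => ?_
  rw [cons_sum]; refine sum_congr rfl fun e _ => ?_
  rw [cons_sum]; refine sum_congr rfl fun f _ => ?_
  rw [cons_sum]; refine sum_congr rfl fun u _ => ?_
  rw [cons_sum]; refine sum_congr rfl fun v _ => ?_
  rw [Fintype.sum_unique]
  rfl

theorem sum_L (κ : V → V → V → V → V → V → V → V → ℤ) : ∑ x : Fin 8 → V, L8f κ x =
    28 * ∑ a, ∑ b, ∑ c, ∑ d, ∑ e, ∑ f, ∑ u, ∑ v, κ a b c d e f u v := by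
  rw [← iter8]
  obtain ⟨S, hS⟩ : ∃ S, ∑ x : Fin 8 → V, κ (x 0) (x 1) (x 2) (x 3) (x 4) (x 5) (x 6) (x 7) = S := ⟨_, rfl⟩
  rw [hS]
  have h0 : ∑ x : Fin 8 → V, κ (x 2) (x 3) (x 4) (x 5) (x 6) (x 7) (x 0) (x 1) = S :=
    (perm_sum κ ![2, 3, 4, 5, 6, 7, 0, 1] (by decide)).trans hS
  have h1 : ∑ x : Fin 8 → V, κ (x 1) (x 3) (x 4) (x 5) (x 6) (x 7) (x 0) (x 2) = S :=
    (perm_sum κ ![1, 3, 4, 5, 6, 7, 0, 2] (by decide)).trans hS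
  have h2 : ∑ x : Fin 8 → V, κ (x 1) (x 2) (x 4) (x 5) (x 6) (x 7) (x 0) (x 3) = S :=
    (perm_sum κ ![1, 2, 4, 5, 6, 7, 0, 3] (by decide)).trans hS
  have h3 : ∑ x : Fin 8 → V, κ (x 1) (x 2) (x 3) (x 5) (x 6) (x 7) (x 0) (x 4) = S :=
    (perm_sum κ ![1, 2, 3, 5, 6, 7, 0, 4] (by decide)).trans hS
  have h4 : ∑ x : Fin 8 → V, κ (x 1) (x 2) (x 3) (x 4) (x 6) (x 7) (x 0) (x 5) = S :=
    (perm_sum κ ![1, 2, 3, 4, 6, 7, 0, 5] (by decide)).trans hS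
  have h5 : ∑ x : Fin 8 → V, κ (x 1) (x 2) (x 3) (x 4) (x 5) (x 7) (x 0) (x 6) = S :=
    (perm_sum κ ![1, 2, 3, 4, 5, 7, 0, 6] (by decide)).trans hS
  have h6 : ∑ x : Fin 8 → V, κ (x 1) (x 2) (x 3) (x 4) (x 5) (x 6) (x 0) (x 7) = S :=
    (perm_sum κ ![1, 2, 3, 4, 5, 6, 0, 7] (by decide)).trans hS
  have h7 : ∑ x : Fin 8 → V, κ (x 0) (x 3) (x 4) (x 5) (x 6) (x 7) (x 1) (x 2) = S :=
    (perm_sum κ ![0, 3, 4, 5, 6, 7, 1, 2] (by decide)).trans hS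
  have h8 : ∑ x : Fin 8 → V, κ (x 0) (x 2) (x 4) (x 5) (x 6) (x 7) (x 1) (x 3) = S :=
    (perm_sum κ ![0, 2, 4, 5, 6, 7, 1, 3] (by decide)).trans hS
  have h9 : ∑ x : Fin 8 → V, κ (x 0) (x 2) (x 3) (x 5) (x 6) (x 7) (x 1) (x 4) = S :=
    (perm_sum κ ![0, 2, 3, 5, 6, 7, 1, 4] (by decide)).trans hS
  have h10 : ∑ x : Fin 8 → V, κ (x 0) (x 2) (x 3) (x 4) (x 6) (x 7) (x 1) (x 5) = S :=
    (perm_sum κ ![0, 2, 3, 4, 6, 7, 1, 5] (by decide)).trans hS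
  have h11 : ∑ x : Fin 8 → V, κ (x 0) (x 2) (x 3) (x 4) (x 5) (x 7) (x 1) (x 6) = S :=
    (perm_sum κ ![0, 2, 3, 4, 5, 7, 1, 6] (by decide)).trans hS
  have h12 : ∑ x : Fin 8 → V, κ (x 0) (x 2) (x 3) (x 4) (x 5) (x 6) (x 1) (x 7) = S :=
    (perm_sum κ ![0, 2, 3, 4, 5, 6, 1, 7] (by decide)).trans hS
  have h13 : ∑ x : Fin 8 → V, κ (x 0) (x 1) (x 4) (x 5) (x 6) (x 7) (x 2) (x 3) = S :=
    (perm_sum κ ![0, 1, 4, 5, 6, 7, 2, 3] (by decide)).trans hS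
  have h14 : ∑ x : Fin 8 → V, κ (x 0) (x 1) (x 3) (x 5) (x 6) (x 7) (x 2) (x 4) = S :=
    (perm_sum κ ![0, 1, 3, 5, 6, 7, 2, 4] (by decide)).trans hS
  have h15 : ∑ x : Fin 8 → V, κ (x 0) (x 1) (x 3) (x 4) (x 6) (x 7) (x 2) (x 5) = S :=
    (perm_sum κ ![0, 1, 3, 4, 6, 7, 2, 5] (by decide)).trans hS
  have h16 : ∑ x : Fin 8 → V, κ (x 0) (x 1) (x 3) (x 4) (x 5) (x 7) (x 2) (x 6) = S :=
    (perm_sum κ ![0, 1, 3, 4, 5, 7, 2, 6] (by decide)).trans hS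
  have h17 : ∑ x : Fin 8 → V, κ (x 0) (x 1) (x 3) (x 4) (x 5) (x 6) (x 2) (x 7) = S :=
    (perm_sum κ ![0, 1, 3, 4, 5, 6, 2, 7] (by decide)).trans hS
  have h18 : ∑ x : Fin 8 → V, κ (x 0) (x 1) (x 2) (x 5) (x 6) (x 7) (x 3) (x 4) = S :=
    (perm_sum κ ![0, 1, 2, 5, 6, 7, 3, 4] (by decide)).trans hS
  have h19 : ∑ x : Fin 8 → V, κ (x 0) (x 1) (x 2) (x 4) (x 6) (x 7) (x 3) (x 5) = S :=
    (perm_sum κ ![0, 1, 2, 4, 6, 7, 3, 5] (by decide)).trans hS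
  have h20 : ∑ x : Fin 8 → V, κ (x 0) (x 1) (x 2) (x 4) (x 5) (x 7) (x 3) (x 6) = S :=
    (perm_sum κ ![0, 1, 2, 4, 5, 7, 3, 6] (by decide)).trans hS
  have h21 : ∑ x : Fin 8 → V, κ (x 0) (x 1) (x 2) (x 4) (x 5) (x 6) (x 3) (x 7) = S :=
    (perm_sum κ ![0, 1, 2, 4, 5, 6, 3, 7] (by decide)).trans hS
  have h22 : ∑ x : Fin 8 → V, κ (x 0) (x 1) (x 2) (x 3) (x 6) (x 7) (x 4) (x 5) = S :=
    (perm_sum κ ![0, 1, 2, 3, 6, 7, 4, 5] (by decide)).trans hS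
  have h23 : ∑ x : Fin 8 → V, κ (x 0) (x 1) (x 2) (x 3) (x 5) (x 7) (x 4) (x 6) = S :=
    (perm_sum κ ![0, 1, 2, 3, 5, 7, 4, 6] (by decide)).trans hS
  have h24 : ∑ x : Fin 8 → V, κ (x 0) (x 1) (x 2) (x 3) (x 5) (x 6) (x 4) (x 7) = S :=
    (perm_sum κ ![0, 1, 2, 3, 5, 6, 4, 7] (by decide)).trans hS
  have h25 : ∑ x : Fin 8 → V, κ (x 0) (x 1) (x 2) (x 3) (x 4) (x 7) (x 5) (x 6) = S :=
    (perm_sum κ ![0, 1, 2, 3, 4, 7, 5, 6] (by decide)).trans hS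
  have h26 : ∑ x : Fin 8 → V, κ (x 0) (x 1) (x 2) (x 3) (x 4) (x 6) (x 5) (x 7) = S :=
    (perm_sum κ ![0, 1, 2, 3, 4, 6, 5, 7] (by decide)).trans hS
  have h27 : ∑ x : Fin 8 → V, κ (x 0) (x 1) (x 2) (x 3) (x 4) (x 5) (x 6) (x 7) = S :=
    (perm_sum κ ![0, 1, 2, 3, 4, 5, 6, 7] (by decide)).trans hS
  unfold L8f L8
  simp only [sum_add_distrib, h0, h1, h2, h3, h4, h5, h6, h7, h8, h9, h10, h11, h12, h13, h14, h15, h16, h17, h18, h19, h20, h21, h22, h23, h24, h25, h26, h27]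
  ring

theorem sum_D (E : V → V → V → V → ℕ) : ∑ x : Fin 8 → V, D8f E x =
    70 * (Fintype.card V ^ 4 * ∑ a, ∑ b, ∑ c, ∑ d, E a b c d) := by
  have h0 : Fintype.card V ^ 4 * ∑ a, ∑ b, ∑ c, ∑ d, E a b c d =
      ∑ x : Fin 8 → V, E (x 0) (x 1) (x 2) (x 3) := by
    have := iter8 (fun a b c d _ _ _ _ : V => E a b c d)
    rw [this]
    simp only [sum_const, card_univ, smul_eq_mul, ← mul_sum]
    ring
  rw [h0]
  obtain ⟨S, hS⟩ : ∃ S, ∑ x : Fin 8 → V, E (x 0) (x 1) (x 2) (x 3) = S := ⟨_, rfl⟩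
  rw [hS]
  have h1 : ∑ x : Fin 8 → V, E (x 0) (x 1) (x 2) (x 3) = S :=
    (perm_sum (fun a b c d _ _ _ _ => E a b c d) ![0, 1, 2, 3, 4, 5, 6, 7] (by decide)).trans hS
  have h2 : ∑ x : Fin 8 → V, E (x 0) (x 1) (x 2) (x 4) = S :=
    (perm_sum (fun a b c d _ _ _ _ => E a b c d) ![0, 1, 2, 4, 3, 5, 6, 7] (by decide)).trans hS
  have h3 : ∑ x : Fin 8 → V, E (x 0) (x 1) (x 2) (x 5) = S :=
    (perm_sum (fun a b c d _ _ _ _ => E a b c d) ![0, 1, 2, 5, 3, 4, 6, 7] (by decide)).trans hS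
  have h4 : ∑ x : Fin 8 → V, E (x 0) (x 1) (x 2) (x 6) = S :=
    (perm_sum (fun a b c d _ _ _ _ => E a b c d) ![0, 1, 2, 6, 3, 4, 5, 7] (by decide)).trans hS
  have h5 : ∑ x : Fin 8 → V, E (x 0) (x 1) (x 3) (x 4) = S :=
    (perm_sum (fun a b c d _ _ _ _ => E a b c d) ![0, 1, 3, 4, 2, 5, 6, 7] (by decide)).trans hS
  have h6 : ∑ x : Fin 8 → V, E (x 0) (x 1) (x 3) (x 5) = S :=
    (perm_sum (fun a b c d _ _ _ _ => E a b c d) ![0, 1, 3, 5, 2, 4, 6, 7] (by decide)).trans hS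
  have h7 : ∑ x : Fin 8 → V, E (x 0) (x 1) (x 3) (x 6) = S :=
    (perm_sum (fun a b c d _ _ _ _ => E a b c d) ![0, 1, 3, 6, 2, 4, 5, 7] (by decide)).trans hS
  have h8 : ∑ x : Fin 8 → V, E (x 0) (x 1) (x 4) (x 5) = S :=
    (perm_sum (fun a b c d _ _ _ _ => E a b c d) ![0, 1, 4, 5, 2, 3, 6, 7] (by decide)).trans hS
  have h9 : ∑ x : Fin 8 → V, E (x 0) (x 1) (x 4) (x 6) = S :=
    (perm_sum (fun a b c d _ _ _ _ => E a b c d) ![0, 1, 4, 6, 2, 3, 5, 7] (by decide)).trans hS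
  have h10 : ∑ x : Fin 8 → V, E (x 0) (x 1) (x 5) (x 6) = S :=
    (perm_sum (fun a b c d _ _ _ _ => E a b c d) ![0, 1, 5, 6, 2, 3, 4, 7] (by decide)).trans hS
  have h11 : ∑ x : Fin 8 → V, E (x 0) (x 2) (x 3) (x 4) = S :=
    (perm_sum (fun a b c d _ _ _ _ => E a b c d) ![0, 2, 3, 4, 1, 5, 6, 7] (by decide)).trans hS
  have h12 : ∑ x : Fin 8 → V, E (x 0) (x 2) (x 3) (x 5) = S :=
    (perm_sum (fun a b c d _ _ _ _ => E a b c d) ![0, 2, 3, 5, 1, 4, 6, 7] (by decide)).trans hS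
  have h13 : ∑ x : Fin 8 → V, E (x 0) (x 2) (x 3) (x 6) = S :=
    (perm_sum (fun a b c d _ _ _ _ => E a b c d) ![0, 2, 3, 6, 1, 4, 5, 7] (by decide)).trans hS
  have h14 : ∑ x : Fin 8 → V, E (x 0) (x 2) (x 4) (x 5) = S :=
    (perm_sum (fun a b c d _ _ _ _ => E a b c d) ![0, 2, 4, 5, 1, 3, 6, 7] (by decide)).trans hS
  have h15 : ∑ x : Fin 8 → V, E (x 0) (x 2) (x 4) (x 6) = S :=
    (perm_sum (fun a b c d _ _ _ _ => E a b c d) ![0, 2, 4, 6, 1, 3, 5, 7] (by decide)).trans hS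
  have h16 : ∑ x : Fin 8 → V, E (x 0) (x 2) (x 5) (x 6) = S :=
    (perm_sum (fun a b c d _ _ _ _ => E a b c d) ![0, 2, 5, 6, 1, 3, 4, 7] (by decide)).trans hS
  have h17 : ∑ x : Fin 8 → V, E (x 0) (x 3) (x 4) (x 5) = S :=
    (perm_sum (fun a b c d _ _ _ _ => E a b c d) ![0, 3, 4, 5, 1, 2, 6, 7] (by decide)).trans hS
  have h18 : ∑ x : Fin 8 → V, E (x 0) (x 3) (x 4) (x 6) = S :=
    (perm_sum (fun a b c d _ _ _ _ => E a b c d) ![0, 3, 4, 6, 1, 2, 5, 7] (by decide)).trans hS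
  have h19 : ∑ x : Fin 8 → V, E (x 0) (x 3) (x 5) (x 6) = S :=
    (perm_sum (fun a b c d _ _ _ _ => E a b c d) ![0, 3, 5, 6, 1, 2, 4, 7] (by decide)).trans hS
  have h20 : ∑ x : Fin 8 → V, E (x 0) (x 4) (x 5) (x 6) = S :=
    (perm_sum (fun a b c d _ _ _ _ => E a b c d) ![0, 4, 5, 6, 1, 2, 3, 7] (by decide)).trans hS
  have h21 : ∑ x : Fin 8 → V, E (x 1) (x 2) (x 3) (x 4) = S :=
    (perm_sum (fun a b c d _ _ _ _ => E a b c d) ![1, 2, 3, 4, 0, 5, 6, 7] (by decide)).trans hS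
  have h22 : ∑ x : Fin 8 → V, E (x 1) (x 2) (x 3) (x 5) = S :=
    (perm_sum (fun a b c d _ _ _ _ => E a b c d) ![1, 2, 3, 5, 0, 4, 6, 7] (by decide)).trans hS
  have h23 : ∑ x : Fin 8 → V, E (x 1) (x 2) (x 3) (x 6) = S :=
    (perm_sum (fun a b c d _ _ _ _ => E a b c d) ![1, 2, 3, 6, 0, 4, 5, 7] (by decide)).trans hS
  have h24 : ∑ x : Fin 8 → V, E (x 1) (x 2) (x 4) (x 5) = S :=
    (perm_sum (fun a b c d _ _ _ _ => E a b c d) ![1, 2, 4, 5, 0, 3, 6, 7] (by decide)).trans hS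
  have h25 : ∑ x : Fin 8 → V, E (x 1) (x 2) (x 4) (x 6) = S :=
    (perm_sum (fun a b c d _ _ _ _ => E a b c d) ![1, 2, 4, 6, 0, 3, 5, 7] (by decide)).trans hS
  have h26 : ∑ x : Fin 8 → V, E (x 1) (x 2) (x 5) (x 6) = S :=
    (perm_sum (fun a b c d _ _ _ _ => E a b c d) ![1, 2, 5, 6, 0, 3, 4, 7] (by decide)).trans hS
  have h27 : ∑ x : Fin 8 → V, E (x 1) (x 3) (x 4) (x 5) = S :=
    (perm_sum (fun a b c d _ _ _ _ => E a b c d) ![1, 3, 4, 5, 0, 2, 6, 7] (by decide)).trans hS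
  have h28 : ∑ x : Fin 8 → V, E (x 1) (x 3) (x 4) (x 6) = S :=
    (perm_sum (fun a b c d _ _ _ _ => E a b c d) ![1, 3, 4, 6, 0, 2, 5, 7] (by decide)).trans hS
  have h29 : ∑ x : Fin 8 → V, E (x 1) (x 3) (x 5) (x 6) = S :=
    (perm_sum (fun a b c d _ _ _ _ => E a b c d) ![1, 3, 5, 6, 0, 2, 4, 7] (by decide)).trans hS
  have h30 : ∑ x : Fin 8 → V, E (x 1) (x 4) (x 5) (x 6) = S :=
    (perm_sum (fun a b c d _ _ _ _ => E a b c d) ![1, 4, 5, 6, 0, 2, 3, 7] (by decide)).trans hS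
  have h31 : ∑ x : Fin 8 → V, E (x 2) (x 3) (x 4) (x 5) = S :=
    (perm_sum (fun a b c d _ _ _ _ => E a b c d) ![2, 3, 4, 5, 0, 1, 6, 7] (by decide)).trans hS
  have h32 : ∑ x : Fin 8 → V, E (x 2) (x 3) (x 4) (x 6) = S :=
    (perm_sum (fun a b c d _ _ _ _ => E a b c d) ![2, 3, 4, 6, 0, 1, 5, 7] (by decide)).trans hS
  have h33 : ∑ x : Fin 8 → V, E (x 2) (x 3) (x 5) (x 6) = S :=
    (perm_sum (fun a b c d _ _ _ _ => E a b c d) ![2, 3, 5, 6, 0, 1, 4, 7] (by decide)).trans hS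
  have h34 : ∑ x : Fin 8 → V, E (x 2) (x 4) (x 5) (x 6) = S :=
    (perm_sum (fun a b c d _ _ _ _ => E a b c d) ![2, 4, 5, 6, 0, 1, 3, 7] (by decide)).trans hS
  have h35 : ∑ x : Fin 8 → V, E (x 3) (x 4) (x 5) (x 6) = S :=
    (perm_sum (fun a b c d _ _ _ _ => E a b c d) ![3, 4, 5, 6, 0, 1, 2, 7] (by decide)).trans hS
  have h36 : ∑ x : Fin 8 → V, E (x 0) (x 1) (x 2) (x 7) = S :=
    (perm_sum (fun a b c d _ _ _ _ => E a b c d) ![0, 1, 2, 7, 3, 4, 5, 6] (by decide)).trans hS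
  have h37 : ∑ x : Fin 8 → V, E (x 0) (x 1) (x 3) (x 7) = S :=
    (perm_sum (fun a b c d _ _ _ _ => E a b c d) ![0, 1, 3, 7, 2, 4, 5, 6] (by decide)).trans hS
  have h38 : ∑ x : Fin 8 → V, E (x 0) (x 1) (x 4) (x 7) = S :=
    (perm_sum (fun a b c d _ _ _ _ => E a b c d) ![0, 1, 4, 7, 2, 3, 5, 6] (by decide)).trans hS
  have h39 : ∑ x : Fin 8 → V, E (x 0) (x 1) (x 5) (x 7) = S :=
    (perm_sum (fun a b c d _ _ _ _ => E a b c d) ![0, 1, 5, 7, 2, 3, 4, 6] (by decide)).trans hS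
  have h40 : ∑ x : Fin 8 → V, E (x 0) (x 1) (x 6) (x 7) = S :=
    (perm_sum (fun a b c d _ _ _ _ => E a b c d) ![0, 1, 6, 7, 2, 3, 4, 5] (by decide)).trans hS
  have h41 : ∑ x : Fin 8 → V, E (x 0) (x 2) (x 3) (x 7) = S :=
    (perm_sum (fun a b c d _ _ _ _ => E a b c d) ![0, 2, 3, 7, 1, 4, 5, 6] (by decide)).trans hS
  have h42 : ∑ x : Fin 8 → V, E (x 0) (x 2) (x 4) (x 7) = S :=
    (perm_sum (fun a b c d _ _ _ _ => E a b c d) ![0, 2, 4, 7, 1, 3, 5, 6] (by decide)).trans hS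
  have h43 : ∑ x : Fin 8 → V, E (x 0) (x 2) (x 5) (x 7) = S :=
    (perm_sum (fun a b c d _ _ _ _ => E a b c d) ![0, 2, 5, 7, 1, 3, 4, 6] (by decide)).trans hS
  have h44 : ∑ x : Fin 8 → V, E (x 0) (x 2) (x 6) (x 7) = S :=
    (perm_sum (fun a b c d _ _ _ _ => E a b c d) ![0, 2, 6, 7, 1, 3, 4, 5] (by decide)).trans hS
  have h45 : ∑ x : Fin 8 → V, E (x 0) (x 3) (x 4) (x 7) = S :=
    (perm_sum (fun a b c d _ _ _ _ => E a b c d) ![0, 3, 4, 7, 1, 2, 5, 6] (by decide)).trans hS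
  have h46 : ∑ x : Fin 8 → V, E (x 0) (x 3) (x 5) (x 7) = S :=
    (perm_sum (fun a b c d _ _ _ _ => E a b c d) ![0, 3, 5, 7, 1, 2, 4, 6] (by decide)).trans hS
  have h47 : ∑ x : Fin 8 → V, E (x 0) (x 3) (x 6) (x 7) = S :=
    (perm_sum (fun a b c d _ _ _ _ => E a b c d) ![0, 3, 6, 7, 1, 2, 4, 5] (by decide)).trans hS
  have h48 : ∑ x : Fin 8 → V, E (x 0) (x 4) (x 5) (x 7) = S :=
    (perm_sum (fun a b c d _ _ _ _ => E a b c d) ![0, 4, 5, 7, 1, 2, 3, 6] (by decide)).trans hS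
  have h49 : ∑ x : Fin 8 → V, E (x 0) (x 4) (x 6) (x 7) = S :=
    (perm_sum (fun a b c d _ _ _ _ => E a b c d) ![0, 4, 6, 7, 1, 2, 3, 5] (by decide)).trans hS
  have h50 : ∑ x : Fin 8 → V, E (x 0) (x 5) (x 6) (x 7) = S :=
    (perm_sum (fun a b c d _ _ _ _ => E a b c d) ![0, 5, 6, 7, 1, 2, 3, 4] (by decide)).trans hS
  have h51 : ∑ x : Fin 8 → V, E (x 1) (x 2) (x 3) (x 7) = S :=
    (perm_sum (fun a b c d _ _ _ _ => E a b c d) ![1, 2, 3, 7, 0, 4, 5, 6] (by decide)).trans hS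
  have h52 : ∑ x : Fin 8 → V, E (x 1) (x 2) (x 4) (x 7) = S :=
    (perm_sum (fun a b c d _ _ _ _ => E a b c d) ![1, 2, 4, 7, 0, 3, 5, 6] (by decide)).trans hS
  have h53 : ∑ x : Fin 8 → V, E (x 1) (x 2) (x 5) (x 7) = S :=
    (perm_sum (fun a b c d _ _ _ _ => E a b c d) ![1, 2, 5, 7, 0, 3, 4, 6] (by decide)).trans hS
  have h54 : ∑ x : Fin 8 → V, E (x 1) (x 2) (x 6) (x 7) = S :=
    (perm_sum (fun a b c d _ _ _ _ => E a b c d) ![1, 2, 6, 7, 0, 3, 4, 5] (by decide)).trans hS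
  have h55 : ∑ x : Fin 8 → V, E (x 1) (x 3) (x 4) (x 7) = S :=
    (perm_sum (fun a b c d _ _ _ _ => E a b c d) ![1, 3, 4, 7, 0, 2, 5, 6] (by decide)).trans hS
  have h56 : ∑ x : Fin 8 → V, E (x 1) (x 3) (x 5) (x 7) = S :=
    (perm_sum (fun a b c d _ _ _ _ => E a b c d) ![1, 3, 5, 7, 0, 2, 4, 6] (by decide)).trans hS
  have h57 : ∑ x : Fin 8 → V, E (x 1) (x 3) (x 6) (x 7) = S :=
    (perm_sum (fun a b c d _ _ _ _ => E a b c d) ![1, 3, 6, 7, 0, 2, 4, 5] (by decide)).trans hS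
  have h58 : ∑ x : Fin 8 → V, E (x 1) (x 4) (x 5) (x 7) = S :=
    (perm_sum (fun a b c d _ _ _ _ => E a b c d) ![1, 4, 5, 7, 0, 2, 3, 6] (by decide)).trans hS
  have h59 : ∑ x : Fin 8 → V, E (x 1) (x 4) (x 6) (x 7) = S :=
    (perm_sum (fun a b c d _ _ _ _ => E a b c d) ![1, 4, 6, 7, 0, 2, 3, 5] (by decide)).trans hS
  have h60 : ∑ x : Fin 8 → V, E (x 1) (x 5) (x 6) (x 7) = S :=
    (perm_sum (fun a b c d _ _ _ _ => E a b c d) ![1, 5, 6, 7, 0, 2, 3, 4] (by decide)).trans hS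
  have h61 : ∑ x : Fin 8 → V, E (x 2) (x 3) (x 4) (x 7) = S :=
    (perm_sum (fun a b c d _ _ _ _ => E a b c d) ![2, 3, 4, 7, 0, 1, 5, 6] (by decide)).trans hS
  have h62 : ∑ x : Fin 8 → V, E (x 2) (x 3) (x 5) (x 7) = S :=
    (perm_sum (fun a b c d _ _ _ _ => E a b c d) ![2, 3, 5, 7, 0, 1, 4, 6] (by decide)).trans hS
  have h63 : ∑ x : Fin 8 → V, E (x 2) (x 3) (x 6) (x 7) = S :=
    (perm_sum (fun a b c d _ _ _ _ => E a b c d) ![2, 3, 6, 7, 0, 1, 4, 5] (by decide)).trans hS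
  have h64 : ∑ x : Fin 8 → V, E (x 2) (x 4) (x 5) (x 7) = S :=
    (perm_sum (fun a b c d _ _ _ _ => E a b c d) ![2, 4, 5, 7, 0, 1, 3, 6] (by decide)).trans hS
  have h65 : ∑ x : Fin 8 → V, E (x 2) (x 4) (x 6) (x 7) = S :=
    (perm_sum (fun a b c d _ _ _ _ => E a b c d) ![2, 4, 6, 7, 0, 1, 3, 5] (by decide)).trans hS
  have h66 : ∑ x : Fin 8 → V, E (x 2) (x 5) (x 6) (x 7) = S :=
    (perm_sum (fun a b c d _ _ _ _ => E a b c d) ![2, 5, 6, 7, 0, 1, 3, 4] (by decide)).trans hS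
  have h67 : ∑ x : Fin 8 → V, E (x 3) (x 4) (x 5) (x 7) = S :=
    (perm_sum (fun a b c d _ _ _ _ => E a b c d) ![3, 4, 5, 7, 0, 1, 2, 6] (by decide)).trans hS
  have h68 : ∑ x : Fin 8 → V, E (x 3) (x 4) (x 6) (x 7) = S :=
    (perm_sum (fun a b c d _ _ _ _ => E a b c d) ![3, 4, 6, 7, 0, 1, 2, 5] (by decide)).trans hS
  have h69 : ∑ x : Fin 8 → V, E (x 3) (x 5) (x 6) (x 7) = S :=
    (perm_sum (fun a b c d _ _ _ _ => E a b c d) ![3, 5, 6, 7, 0, 1, 2, 4] (by decide)).trans hS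
  have h70 : ∑ x : Fin 8 → V, E (x 4) (x 5) (x 6) (x 7) = S :=
    (perm_sum (fun a b c d _ _ _ _ => E a b c d) ![4, 5, 6, 7, 0, 1, 2, 3] (by decide)).trans hS
  unfold D8f D8 t7 g7
  simp only [sum_add_distrib, h1, h2, h3, h4, h5, h6, h7, h8, h9, h10, h11, h12, h13, h14, h15, h16, h17, h18, h19, h20, h21, h22, h23, h24, h25, h26, h27, h28, h29, h30, h31, h32, h33, h34, h35, h36, h37, h38, h39, h40, h41, h42, h43, h44, h45, h46, h47, h48, h49, h50, h51, h52, h53, h54, h55, h56, h57, h58, h59, h60, h61, h62, h63, h64, h65, h66, h67, h68, h69, h70]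
  ring

theorem t : S_avg := by
  intro V _ κ E s hs hκ h
  have h1 : ∑ x : Fin 8 → V, L8f κ x ≤ ∑ x : Fin 8 → V, s * (8 * (D8f E x : ℤ) - 175) :=
    sum_le_sum fun x _ => h x
  rw [sum_L, ← mul_sum, sum_sub_distrib, ← mul_sum, ← Nat.cast_sum, sum_D] at h1
  rw [sum_const, card_univ, Fintype.card_fun, Fintype.card_fin] at h1
  have h2 : 0 ≤ ∑ a, ∑ b, ∑ c, ∑ d, ∑ e, ∑ f, ∑ u, ∑ v, κ a b c d e f u v :=
    sum_nonneg fun a _ => sum_nonneg fun b _ => sum_nonneg fun c _ => sum_nonneg fun d _ =>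
      sum_nonneg fun e _ => sum_nonneg fun f _ => hκ a b c d e f
  obtain ⟨T, hT⟩ : ∃ T, ∑ a, ∑ b, ∑ c, ∑ d, E a b c d = T := ⟨_, rfl⟩
  obtain ⟨n, hn⟩ : ∃ n, Fintype.card V = n := ⟨_, rfl⟩
  rw [hT, hn] at h1 ⊢
  have h3 : 0 ≤ s * (8 * ((70 * (n ^ 4 * T) : ℕ) : ℤ) - n ^ 8 • 175) := by linarith
  have h4 : 0 ≤ 8 * ((70 * (n ^ 4 * T) : ℕ) : ℤ) - n ^ 8 • 175 := nonneg_of_mul_nonneg_right h3 hs
  rcases Nat.eq_zero_or_pos n with h0 | h0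
  · rw [h0]
    simp
  · rw [nsmul_eq_mul] at h4
    push_cast at h4
    have h5 : (0 : ℤ) ≤ (n : ℤ) ^ 4 * (16 * T - 5 * (n : ℤ) ^ 4) := by nlinarith
    have h6 : (0 : ℤ) < (n : ℤ) ^ 4 := by positivity
    have h7 := nonneg_of_mul_nonneg_right h5 h6
    have h8 : (5 : ℤ) * (n : ℤ) ^ 4 ≤ 16 * T := by linarith
    exact_mod_cast h8

end Pool.Agent.Y781.Q440
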